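import Pool.Agent.Helper86.TH.Stmts

/-!
# Eigenvectors of `D_0 + M d/dp_1` (row TI)
-/

namespace TH79

open TH MvPolynomial Finset

noncomputable section

section
variable {K : Type*} [Field K] [CharZero K]

theorem proj_eq {q t : K} {b : Module.Basis Par K (Sy K)} (h : IsE q t b) (m : ℕ) (F : Sy K) :
    dg b (fun ν => if card ν = m then (1 : K) else 0) F
      = weightedHomogeneousComponent (fun j : ℕ => j + 1) m F := by
  have h1 : dg b (fun ν => if card ν = m then (1 : K) else 0)
      = weightedHomogeneousComponent (R := K) (fun j : ℕ => j + 1) m := by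
    refine b.ext fun ν => ?_
    rw [dg_apply_basis]
    have hν : IsWeightedHomogeneous (fun j : ℕ => j + 1) (b ν) (card ν) := h.hom ν
    by_cases hm : card ν = m
    · rw [if_pos hm, one_smul]
      subst hm
      exact (hν.weightedHomogeneousComponent_same).symm
    · rw [if_neg hm, zero_smul]
      rw [weightedHomogeneousComponent_of_mem (n := card ν) hν, if_neg (fun h => hm h.symm)]
  rw [h1]

theorem proj_same {q t : K} {b : Module.Basis Par K (Sy K)} (h : IsE q t b) {m : ℕ} {F : Sy K}
    (hF : WH m F) : dg b (fun ν => if card ν = m then (1 : K) else 0) F = F := by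
  rw [proj_eq h]
  exact hF.weightedHomogeneousComponent_same

theorem wh_of_proj {q t : K} {b : Module.Basis Par K (Sy K)} (h : IsE q t b) {m : ℕ} {F : Sy K}
    (hF : dg b (fun ν => if card ν = m then (1 : K) else 0) F = F) : WH m F := by
  rw [← hF, proj_eq h]
  exact weightedHomogeneousComponent_isWeightedHomogeneous m F

/-- homogeneous elements are combinations of basis elements of the same degree -/
theorem repr_deg {q t : K} {b : Module.Basis Par K (Sy K)} (h : IsE q t b) {m : ℕ} {F : Sy K}
    (hF : WH m F) {ν : Par} (hν : b.repr F ν ≠ 0) : card ν = m := by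
  by_contra hne
  apply hν
  rw [← proj_same h hF, dg_repr, if_neg hne, zero_mul]

theorem wh_dg {q t : K} {b : Module.Basis Par K (Sy K)} (h : IsE q t b) {m : ℕ} {F : Sy K}
    (hF : WH m F) (f : Par → K) : WH m (dg b f F) := by
  apply wh_of_proj h
  have h1 := congrArg (fun T : Module.End K (Sy K) => T F)
    (dg_comm b (fun ν => if card ν = m then (1 : K) else 0) f)
  simp only [Module.End.mul_apply] at h1
  rw [h1, proj_same h hF]

omit [CharZero K] in
theorem wh_smul {m : ℕ} {F : Sy K} (hF : WH m F) (c : K) : WH m (c • F) := by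
  have h1 : F ∈ weightedHomogeneousSubmodule K (fun j : ℕ => j + 1) m := hF
  exact Submodule.smul_mem _ c h1

end

theorem st_TI (K : Type*) [Field K] [CharZero K] (hDEG : ST_DEG K) : ST_TI K := by
  classical
  intro q t hG b hE μ
  have hM : Mj q t 0 ≠ 0 := hG.Mj_ne 0
  set M : K := Mj q t 0 with hMdef
  set c : Par → K := fun ν => 1 - M * Ps q t ν 0 with hc
  have hcne : ∀ ν, ν ≠ μ → c μ - c ν ≠ 0 := by
    intro ν hν h
    apply hν
    apply hG.inj
    have : M * (Ps q t ν 0 - Ps q t μ 0) = 0 := by
      rw [hc] at h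
      simp only at h
      linear_combination h
    rcases mul_eq_zero.mp this with h1 | h1
    · exact absurd h1 hM
    · exact sub_eq_zero.mp h1
  have hD0 : Dk q t 0 = dg b c := Dk_zero_eq_dg hE
  let r : Par → K := fun ν => if ν = μ then 0 else (c μ - c ν)⁻¹
  let J : ℕ → Sy K := fun k => Nat.rec (b μ) (fun _ F => dg b r (M • pd F)) k
  have hJ0 : J 0 = b μ := rfl
  have hJs : ∀ k, J (k + 1) = dg b r (M • pd (J k)) := fun k => rfl
  set n := card μ with hn
  have hJdeg : ∀ k, k ≤ n → WH (n - k) (J k) := by
    intro k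
    induction k with
    | zero => intro _; rw [hJ0]; exact hE.hom μ
    | succ k ih =>
      intro hk
      rw [hJs]
      apply wh_dg hE
      apply wh_smul
      have := (hDEG q t (n - k) (J k) (ih (by omega))).2.2.2.1
      have h2 : n - k - 1 = n - (k + 1) := by omega
      rw [h2] at this
      exact this
  have hpdn : pd (J n) = 0 := by
    have h1 := hJdeg n le_rfl
    exact (hDEG q t (n - n) (J n) h1).2.2.2.2 (by omega)
  -- the key relation
  have hrel : ∀ k, k < n → Dk q t 0 (J (k + 1)) - c μ • J (k + 1) = -(M • pd (J k)) := by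
    intro k hk
    set G : Sy K := M • pd (J k) with hGd
    have hGdeg : WH (n - (k + 1)) G := by
      apply wh_smul
      have := (hDEG q t (n - k) (J k) (hJdeg k (by omega))).2.2.2.1
      have h2 : n - k - 1 = n - (k + 1) := by omega
      rw [h2] at this
      exact this
    have hGμ : b.repr G μ = 0 := by
      by_contra hne
      have := repr_deg hE hGdeg hne
      omega
    apply b.repr.injective
    ext ν
    have e0 : J (k + 1) = dg b r G := by rw [hJs]
    have e1 : b.repr (dg b c (dg b r G)) ν = c ν * (r ν * b.repr G ν) := by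
      rw [dg_repr, dg_repr]
    have e2 : b.repr (c μ • dg b r G) ν = c μ * (r ν * b.repr G ν) := by
      rw [LinearEquiv.map_smul, Finsupp.smul_apply, dg_repr, smul_eq_mul]
    rw [e0, hD0, map_sub, Finsupp.sub_apply, e1, e2, map_neg, Finsupp.neg_apply]
    by_cases hν : ν = μ
    · subst hν
      rw [hGμ]
      ring
    · have hr : r ν = (c μ - c ν)⁻¹ := if_neg hν
      rw [hr]
      have := hcne ν hν
      field_simp
      ring
  refine ⟨∑ k ∈ range (n + 1), J k, ?_, ?_⟩
  · have hA : Dk q t 0 (∑ k ∈ range (n + 1), J k) - c μ • (∑ k ∈ range (n + 1), J k)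
        = -(∑ k ∈ range n, M • pd (J k)) := by
      rw [map_sum, Finset.smul_sum, ← Finset.sum_sub_distrib, Finset.sum_range_succ', hJ0,
        ← Finset.sum_neg_distrib]
      have h0 : Dk q t 0 (b μ) - c μ • b μ = 0 := by
        rw [hE.eig, sub_self]
      rw [h0, add_zero]
      exact Finset.sum_congr rfl fun k hk => hrel k (Finset.mem_range.mp hk)
    have hB : M • pd (∑ k ∈ range (n + 1), J k) = ∑ k ∈ range n, M • pd (J k) := by
      rw [map_sum, Finset.sum_range_succ, hpdn, add_zero, Finset.smul_sum]
    rw [hB]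
    have hA' := sub_eq_iff_eq_add.mp hA
    rw [hA']
    abel
  · intro ν hν
    have h1 : (∑ k ∈ range (n + 1), J k) - b μ = ∑ k ∈ range n, J (k + 1) := by
      rw [Finset.sum_range_succ', hJ0, add_sub_cancel_right]
    rw [h1, map_sum, Finsupp.finsetSum_apply] at hν
    obtain ⟨k, hk, hkν⟩ := Finset.exists_ne_zero_of_sum_ne_zero hν
    have hk' := Finset.mem_range.mp hk
    have := repr_deg hE (hJdeg (k + 1) (by omega)) hkν
    omega

end

end TH79
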